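import Pool.Agent.Y123.MZ.Zagier

/-!
# Zagier's conjecture is equivalent to its asymptotic form, and to its case of prime weights

Let `Z N` be the `ℚ`-span of the multiple zeta values of weight `N`, `d N` the numbers of Zagier, `total n = d 0 + ... + d n` and
`dimSum n = dim (Z_0 + ... + Z_n)`. Q1 says `dim Z_N = d N` for all `N` and that the sum of the `Z_N` is direct.

The only input is the existence of the algebra of motivic multiple zeta values (Goncharov, Deligne-Goncharov, Brown), a theorem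
of the literature, which is the hypothesis `IsMotivicAlgebra`: a graded commutative `ℚ`-algebra without zero divisors, with
graded pieces `A N` of dimension `d N` (`ℚ[f_2] ⊗ ℚ⟨f_3, f_5, ...⟩` with the shuffle product is a polynomial ring), and the
period map, a homomorphism to `ℝ` which maps `A N` onto `Z N`. It contains the upper bound `dim Z_N ≤ d N`.

Theorem.

1. (Gap) If Q1 fails up to the weight `N` (one dimension `dim Z_j`, `j ≤ N`, is too small, or `Z_0 + ... + Z_N` is not direct),
then `dimSum (N + m) ≤ total (N + m) - total m ≤ (1 - 2^(-N)) total (N + m)` for all `m`.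
2. So Q1 holds if and only if `limsup dimSum n / total n = 1`: the conjecture is true if it is true up to a set of relations
of density zero, even if this is only known for infinitely many `n`.
3. If `dim Z_N ≠ d N`, then `dim Z_(N+m) ≤ d (N+m) - d m` for all `m`.
4. So `dim Z_N = d N` for all `N` if and only if `limsup dim Z_n / d n = 1`.
5. Q1 is equivalent to its restriction to the weights in a set `S` (the dimensions are right for `N` in `S`, and the sum of the
`Z_N`, `N` in `S`, is direct) for every set `S` which has, for every `L` and some `N = N(L)`, at least `L` elements in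
`[n, n + N)` for infinitely many `n`: sets of positive upper density and, by the theorem of Maynard and Tao (not used here), the
set of primes.

Proof. If Q1 fails up to the weight `N`, there is `x ≠ 0` in `A 0 + ... + A N` of period zero, and multiplication by `x` embeds
`A 0 + ... + A m` into the kernel of the period map on `A 0 + ... + A (N + m)`. For 5 see MP_4d52ff_nt.DirectnessAlongSets.
-/

set_option autoImplicit false

open Module

namespace Pool.Agent.Results.MP_2000e9_nt.AsymptoticForm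

/-- The `ℚ`-span of the multiple zeta values of weight `j` (the largest summation variable is the first one). -/
noncomputable def Z (j : ℕ) : Submodule ℚ ℝ :=
  Submodule.span ℚ
    {x : ℝ | ∃ t : ℕ, ∃ k : Fin t → ℕ,
      (∀ i, 1 ≤ k i) ∧ (∀ h : 0 < t, 2 ≤ k ⟨0, h⟩) ∧ (∑ i, k i) = j ∧
      x = ∑' n : {n : Fin t → ℕ // StrictAnti n ∧ ∀ i, 1 ≤ n i},
            ∏ i, (((n.1 i : ℕ) : ℝ) ^ (k i))⁻¹}

/-- The numbers of Zagier. -/
def d : ℕ → ℕ
  | 0 => 1
  | 1 => 0
  | 2 => 1
  | (n + 3) => d (n + 1) + d n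

/-- The sum of the first `n + 1` of the spaces `A j` is direct. -/
def IsDirect {V : Type} [AddCommGroup V] [Module ℚ V] (A : ℕ → Submodule ℚ V) (n : ℕ) : Prop :=
  ∀ z : ℕ → V, (∀ j ≤ n, z j ∈ A j) → (∑ j ∈ Finset.range (n + 1), z j) = 0 → ∀ j ≤ n, z j = 0

/-- The sum of the `Z_j`, `j` in `S`, is direct. -/
def IsDirectAlong (S : Set ℕ) : Prop := ∀ F : Finset ℕ, (F : Set ℕ) ⊆ S →
  ∀ z : ℕ → ℝ, (∀ j ∈ F, z j ∈ Z j) → (∑ j ∈ F, z j) = 0 → ∀ j ∈ F, z j = 0

open Classical in
/-- The number of the elements of `S` in the interval `[n, n + N)`. -/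
noncomputable def inWindow (S : Set ℕ) (n N : ℕ) : ℕ := ((Finset.range N).filter fun i => n + i ∈ S).card

/-- The dimension of `Z_0 + ... + Z_n`. -/
noncomputable def dimSum (n : ℕ) : ℕ := finrank ℚ (⨆ j : Fin (n + 1), Z j : Submodule ℚ ℝ)

/-- `d 0 + ... + d n`. -/
def total (n : ℕ) : ℕ := ∑ j ∈ Finset.range (n + 1), d j

/-- Q1, the conjecture of Zagier. -/
def ZagierConjecture : Prop := ∀ N, finrank ℚ (Z N) = d N ∧ IsDirect Z N

/-- The properties of the algebra of motivic multiple zeta values with the grading `A` by the weight and the period map `per`,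
in addition to having no zero divisors. -/
structure IsMotivicAlgebra {H : Type} [CommRing H] [Algebra ℚ H] (A : ℕ → Submodule ℚ H) (per : H →ₐ[ℚ] ℝ) : Prop where
  mul_mem : ∀ i j, ∀ x ∈ A i, ∀ y ∈ A j, x * y ∈ A (i + j)
  direct : ∀ n, IsDirect A n
  finite : ∀ n, FiniteDimensional ℚ (A n)
  dim : ∀ n, finrank ℚ (A n) = d n
  image : ∀ n, (A n).map per.toLinearMap = Z n

theorem d_eq : ∀ n, d n = Pool.Agent.Y123.MZ.zd n := by
  intro n
  induction n using Nat.strong_induction_on with
  | _ n ih =>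
    rcases n with _ | _ | _ | n
    · rw [d, Pool.Agent.Y123.MZ.zd]
    · rw [d, Pool.Agent.Y123.MZ.zd]
    · rw [d, Pool.Agent.Y123.MZ.zd]
    · rw [d, Pool.Agent.Y123.MZ.zd, ih _ (by omega), ih _ (by omega)]

theorem d_eq' : d = Pool.Agent.Y123.MZ.zd := funext d_eq

/-- The theorem, see the beginning of the file. -/
theorem result {H : Type} [CommRing H] [IsDomain H] [Algebra ℚ H] (A : ℕ → Submodule ℚ H) (per : H →ₐ[ℚ] ℝ)
    (h : IsMotivicAlgebra A per) :
    -- 1
    (∀ N, ¬ ((∀ j ≤ N, finrank ℚ (Z j) = d j) ∧ IsDirect Z N) → ∀ m,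
      dimSum (N + m) + total m ≤ total (N + m) ∧
      (dimSum (N + m) : ℝ) ≤ (1 - (1 / 2) ^ N) * total (N + m)) ∧
    -- 2
    (ZagierConjecture ↔ ∀ ε : ℝ, 0 < ε → ∀ M, ∃ n ≥ M, (1 - ε) * total n ≤ dimSum n) ∧
    -- 3
    (∀ N, finrank ℚ (Z N) ≠ d N → ∀ m, finrank ℚ (Z (N + m)) + d m ≤ d (N + m)) ∧
    -- 4
    ((∀ N, finrank ℚ (Z N) = d N) ↔
      ∀ ε : ℝ, 0 < ε → ∀ M, ∃ n ≥ M, (1 - ε) * d n ≤ finrank ℚ (Z n)) ∧
    -- 5
    ∀ S : Set ℕ, (∀ L, ∃ N, ∀ M, ∃ n ≥ M, L ≤ inWindow S n N) →
      (ZagierConjecture ↔ (∀ N ∈ S, finrank ℚ (Z N) = d N) ∧ IsDirectAlong S) := by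
  have hd : d = Pool.Agent.Y123.MZ.zd := d_eq'
  have hc : Pool.Agent.Y123.MZ.Cover A per Pool.Agent.H447R2.MZ.Zs Pool.Agent.Y123.MZ.zd :=
    ⟨h.mul_mem, h.direct, h.finite, fun n => by rw [h.dim, hd], h.image⟩
  unfold total ZagierConjecture
  rw [hd]
  exact ⟨fun _ hN m => Pool.Agent.Y123.MZ.zagier_gap hc hN m, Pool.Agent.Y123.MZ.zagier_iff hc,
    fun _ hN m => Pool.Agent.Y123.MZ.zagier_weight_gap hc hN m, Pool.Agent.Y123.MZ.weight_iff hc,
    fun _ hS => Pool.Agent.Y123.MZ.zagier_along hc hS⟩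

end Pool.Agent.Results.MP_2000e9_nt.AsymptoticForm
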