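import Mathlib
import Pool.Agent.Y777.AM.G

/-!
# Multiple zeta values of arbitrary weights: no short relations with small coefficients

At most `N` multiple zeta values of arbitrary, possibly very different weights whose first arguments
are at least `n` and, up to the factor `κ`, the largest ones, satisfy no linear relation with
coefficients at most `C ^ n`, also modulo all multiple zeta values of weight at most `κ n` with at
least `ε n` arguments `≥ 2`.

The proof uses the subspace theorem (helper files `Pool.Agent.Y777.AL`, `Pool.Agent.Y777.AM`, after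
`Pool.Agent.Y760.ZG`).
-/

set_option autoImplicit false

namespace Pool.Agent.Results.MP_2000e9_nt.MixedWeights

/-- `trunc [s_1, ..., s_r] m` is the sum of `∏ n_i ^ (-s_i)` over `m > n_1 > ... > n_r ≥ 1` -/
noncomputable def trunc : List ℕ → ℕ → ℝ
  | [], _ => 1
  | s :: l, m => ∑ j ∈ Finset.Ico 1 m, trunc l j / (j : ℝ) ^ s

/-- the multiple zeta value, the sum of `∏ n_i ^ (-s_i)` over `n_1 > ... > n_r ≥ 1`; in the notation
of the problem file this is `ζ(s_r, ..., s_1)`, the argument `s_1` belongs to the largest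
variable -/
noncomputable def mzv : List ℕ → ℝ
  | [] => 1
  | s :: l => ∑' m : ℕ, trunc l (m + 1) / ((m + 1 : ℕ) : ℝ) ^ s

/-- the number of arguments `≥ 2` -/
def height (w : List ℕ) : ℕ := w.countP (fun s => decide (2 ≤ s))

lemma trunc_eq (w : List ℕ) : ∀ m, trunc w m = Pool.Agent.Y760.ZG.hr w m := by
  induction w with
  | nil => intro m; rw [trunc, Pool.Agent.Y760.ZG.hr_nil]
  | cons s w ih =>
    intro m
    rw [trunc, Pool.Agent.Y760.ZG.hr_cons]
    exact Finset.sum_congr rfl fun j _ => by rw [ih]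

lemma mzv_eq (w : List ℕ) : mzv w = Pool.Agent.Y760.ZG.mz w := by
  cases w with
  | nil => rw [mzv, Pool.Agent.Y760.ZG.mz]
  | cons s w =>
    rw [mzv, Pool.Agent.Y760.ZG.mz]
    exact tsum_congr fun m => by rw [trunc_eq]

/-- Let `β_1, ..., β_l` be real algebraic numbers, linearly independent over `ℚ`, `N` a number,
`κ, C` real and `ε > 0`. There are `B > 1` and `n0` such that for all `n ≥ n0`, all sets `V` of at
most `N` indices `v`, each of them empty or with first argument `s ≥ n` and all arguments at most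
`κ s`, all sets `H` of admissible indices of weight at most `κ n` with at least `ε n` arguments
`≥ 2`, all coefficients `a_v = ∑ a_{v j} β_j` with integers `a_{v j}` of absolute value at most
`C ^ n` such that `a_v ≠ 0` for some nonempty `v` in `V` of depth at most `κ` with first argument at
most `κ n`, and all real numbers `b_h` of absolute value at most `C ^ n`:
`|∑_V a_v ζ(v) - ∑_H b_h ζ(h)| > B ^ (-n)`. -/
theorem result {l : ℕ} (β : Fin l → ℝ) (hβ : ∀ j, IsAlgebraic ℚ (β j))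
    (hli : LinearIndependent ℚ β) (N : ℕ) (κ ε C : ℝ) (hε : 0 < ε) :
    ∃ B : ℝ, 1 < B ∧ ∃ n0 : ℕ, ∀ n : ℕ, n0 ≤ n → ∀ V H : Finset (List ℕ), V.card ≤ N →
      (∀ v ∈ V, (∀ m ∈ v, 1 ≤ m) ∧ ∀ s ∈ v.head?, n ≤ s ∧ ∀ m ∈ v, (m : ℝ) ≤ κ * s) →
      (∀ h ∈ H, h ≠ [] ∧ (∀ m ∈ h, 1 ≤ m) ∧ (∀ s ∈ h.head?, 2 ≤ s) ∧ (h.sum : ℝ) ≤ κ * n ∧
        ε * n ≤ height h) →
      ∀ (a : List ℕ → Fin l → ℤ) (b : List ℕ → ℝ),
      (∃ v ∈ V, v ≠ [] ∧ (v.length : ℝ) ≤ κ ∧ (∀ s ∈ v.head?, (s : ℝ) ≤ κ * n) ∧ a v ≠ 0) →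
      (∀ v ∈ V, ∀ j, |(a v j : ℝ)| ≤ C ^ n) → (∀ h ∈ H, |b h| ≤ C ^ n) →
      (B ^ n)⁻¹ < |∑ v ∈ V, (∑ j, a v j * β j) * mzv v - ∑ h ∈ H, b h * mzv h| := by
  set Q : ℕ := ⌈κ⌉₊ with hQ
  have hκQ : κ ≤ Q := Nat.le_ceil κ
  obtain ⟨B, hB, n0, h⟩ := Pool.Agent.Y777.AM.F1H β hβ hli N Q Q κ C ε hε
  refine ⟨B, hB, n0, fun n hn V H hVN hV hH a b ha haC hbC => ?_⟩
  have hle : ∀ m : ℕ, (m : ℝ) ≤ κ * n → m ≤ Q * n := by
    intro m hm
    have h2 : (m : ℝ) ≤ Q * n := hm.trans (mul_le_mul_of_nonneg_right hκQ (Nat.cast_nonneg _))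
    exact_mod_cast h2
  have h1 := h n hn V hVN hV a (by
      obtain ⟨v, hv, h2, h3, h4, h5⟩ := ha
      refine ⟨v, hv, h2, ⟨by exact_mod_cast h3.trans hκQ, fun s hs => hle s (h4 s hs)⟩, ?_⟩
      by_contra hcon
      push Not at hcon
      exact h5 (funext hcon)) haC H
    (fun v hv => ⟨(hH v hv).1, (hH v hv).2.1, (hH v hv).2.2.1, hle _ (hH v hv).2.2.2.1,
      (hH v hv).2.2.2.2⟩) b hbC
  refine lt_of_lt_of_eq h1 ?_
  congr 2
  · refine Finset.sum_congr rfl fun v _ => ?_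
    rw [Finset.sum_mul, mzv_eq]
    exact Finset.sum_congr rfl fun j _ => by ring
  · exact Finset.sum_congr rfl fun v _ => by rw [mzv_eq]

end Pool.Agent.Results.MP_2000e9_nt.MixedWeights
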